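import Mathlib
import Pool.Agent.H5.Short.Second

/-!
# [H19 LS CNT] MP_8923e7_nt, THEOREM R: from counts of windows `N + [0, lam log x]` to lower density in `n`
-/

set_option autoImplicit false

namespace Pool.Agent.H19.LS

open Finset Filter

/-- `P` holds for a set of `n` of positive lower density -/
def PosLower (P : ℕ → Prop) : Prop :=
  ∃ c : ℝ, 0 < c ∧ ∀ᶠ M : ℕ in atTop, c * M ≤ ({n : ℕ | n < M ∧ P n}.ncard : ℝ)

/-- `P` holds for a set of `n` of positive upper density -/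
def PosUpper (P : ℕ → Prop) : Prop :=
  ∃ c : ℝ, 0 < c ∧ ∃ᶠ M : ℕ in atTop, c * M ≤ ({n : ℕ | n < M ∧ P n}.ncard : ℝ)

private theorem card_fib {lam l : ℝ} (hl : 0 ≤ lam * l) (p : ℕ) (S : Finset ℕ)
    (hS : ∀ N ∈ S, N ≤ p ∧ (p : ℝ) ≤ N + lam * l) : (S.card : ℝ) ≤ lam * l + 1 := by
  have h1 : S ⊆ Finset.Icc (p - ⌊lam * l⌋₊) p := by
    intro N hN
    obtain ⟨h2, h3⟩ := hS N hN
    have h4 : ((p - N : ℕ) : ℝ) ≤ lam * l := by
      rw [Nat.cast_sub h2]
      linarith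
    have h5 : p - N ≤ ⌊lam * l⌋₊ := Nat.le_floor h4
    rw [Finset.mem_Icc]
    omega
  have h2 := Finset.card_le_card h1
  rw [Nat.card_Icc] at h2
  have h3 : S.card ≤ ⌊lam * l⌋₊ + 1 := by omega
  have h4 : ((⌊lam * l⌋₊ : ℕ) : ℝ) ≤ lam * l := Nat.floor_le hl
  calc (S.card : ℝ) ≤ ((⌊lam * l⌋₊ + 1 : ℕ) : ℝ) := by exact_mod_cast h3
    _ = (⌊lam * l⌋₊ : ℝ) + 1 := by push_cast; ring
    _ ≤ lam * l + 1 := by linarith

open Classical in
/-- one scale -/
theorem count_scale (P : ℕ → Prop) {T lam x : ℝ} (M : ℕ) (hlx : 0 ≤ lam * Real.log x)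
    (hY : ∀ p : ℕ, (p : ℝ) ≤ T * x + lam * Real.log x → p.Prime → Nat.primeCounting p ≤ M)
    (S : Finset ℕ) (hS : ∀ N ∈ S, (N : ℝ) ≤ T * x ∧ ∃ n, P n ∧ N ≤ Nat.nth Nat.Prime n ∧
      (Nat.nth Nat.Prime n : ℝ) ≤ N + lam * Real.log x) :
    (S.card : ℝ) ≤ ({n : ℕ | n < M ∧ P n}.ncard : ℝ) * (lam * Real.log x + 1) := by
  have hfin : {n : ℕ | n < M ∧ P n}.Finite := (Set.finite_lt_nat M).subset fun n hn => hn.1
  have hch : ∀ N : ℕ, ∃ n : ℕ, N ∈ S → P n ∧ N ≤ Nat.nth Nat.Prime n ∧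
      (Nat.nth Nat.Prime n : ℝ) ≤ N + lam * Real.log x := by
    intro N
    by_cases hN : N ∈ S
    · obtain ⟨n, hn⟩ := (hS N hN).2
      exact ⟨n, fun _ => hn⟩
    · exact ⟨0, fun h => absurd h hN⟩
  choose f hf using hch
  have hmap : ∀ N ∈ S, f N ∈ hfin.toFinset := by
    intro N hN
    rw [Set.Finite.mem_toFinset]
    obtain ⟨h1, h2, h3⟩ := hf N hN
    refine ⟨?_, h1⟩
    have h4 := (hS N hN).1
    have hp : (Nat.nth Nat.Prime (f N)).Prime := Nat.prime_nth_prime _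
    have h5 := hY _ (by linarith) hp
    have h6 : Nat.primeCounting (Nat.nth Nat.Prime (f N)) = f N + 1 := by
      rw [Nat.primeCounting, Nat.primeCounting', Nat.count_succ,
        Nat.count_nth_of_infinite Nat.infinite_setOfPred_prime, if_pos hp]
    omega
  have h1 := Finset.card_eq_sum_card_fiberwise (f := f) (s := S) (t := hfin.toFinset) hmap
  rw [h1, Nat.cast_sum]
  have h2 : ∀ n ∈ hfin.toFinset, (((S.filter (fun N => f N = n)).card : ℕ) : ℝ) ≤
      lam * Real.log x + 1 := by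
    intro n _
    refine card_fib hlx (Nat.nth Nat.Prime n) _ ?_
    intro N hN
    obtain ⟨h3, h4⟩ := Finset.mem_filter.1 hN
    obtain ⟨-, h5, h6⟩ := hf N h3
    rw [h4] at h5 h6
    exact ⟨h5, h6⟩
  refine (Finset.sum_le_sum h2).trans (le_of_eq ?_)
  rw [Finset.sum_const, nsmul_eq_mul, Set.ncard_eq_toFinset_card _ hfin]

private theorem cnt_pc : ∃ C : ℝ, 0 < C ∧ ∀ X : ℕ, 2 ≤ X →
    (Nat.primeCounting X : ℝ) ≤ C * X / Real.log X := by
  obtain ⟨C, hC, h⟩ := Pool.Agent.H5.Short.pi_le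
  refine ⟨C, hC, fun X hX => ?_⟩
  have h1 := h X hX
  have e : ((Icc 1 X).filter Nat.Prime).card = Nat.primeCounting X := by
    rw [Nat.primeCounting, Nat.primeCounting', Nat.count_eq_card_filter_range]
    congr 1
    ext p
    simp only [mem_filter, mem_Icc, mem_range]
    constructor
    · rintro ⟨⟨_, h2⟩, h3⟩
      exact ⟨by omega, h3⟩
    · rintro ⟨h1, h2⟩
      exact ⟨⟨h2.one_lt.le, by omega⟩, h2⟩
  rw [e] at h1
  exact h1

/-- `log x ≤ K x` for large `x` -/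
private theorem log_small (K : ℝ) (hK : 0 < K) : ∀ᶠ x : ℝ in atTop, Real.log x ≤ K * x := by
  have h1 := Real.isLittleO_log_id_atTop.def hK
  filter_upwards [h1, eventually_ge_atTop (1 : ℝ)] with x hx hx1
  rw [Real.norm_of_nonneg (Real.log_nonneg hx1), id, Real.norm_of_nonneg (by linarith)] at hx
  exact hx

/-- **from windows to lower density** -/
theorem lower_of_windows (P : ℕ → Prop) (T lam del : ℝ) (hT : 1 ≤ T) (hl : 0 ≤ lam)
    (hd : 0 < del)
    (h : ∀ᶠ x : ℝ in atTop, ∃ S : Finset ℕ, del * x ≤ S.card ∧ ∀ N ∈ S, (N : ℝ) ≤ T * x ∧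
      ∃ n, P n ∧ N ≤ Nat.nth Nat.Prime n ∧ (Nat.nth Nat.Prime n : ℝ) ≤ N + lam * Real.log x) :
    PosLower P := by
  obtain ⟨C, hC, hpc⟩ := cnt_pc
  obtain ⟨κ, hκ⟩ : ∃ κ : ℝ, κ = 1 / (4 * C * T) := ⟨_, rfl⟩
  have hT0 : 0 < T := by linarith
  have hκ0 : 0 < κ := by rw [hκ]; positivity
  have hCT : 4 * C * T * κ = 1 := by rw [hκ]; field_simp
  refine ⟨del * κ / (2 * lam + 1), by positivity, ?_⟩
  -- the scale
  have hlogM : Tendsto (fun M : ℕ => Real.log (M : ℝ)) atTop atTop :=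
    Real.tendsto_log_atTop.comp tendsto_natCast_atTop_atTop
  have hx : Tendsto (fun M : ℕ => κ * (M * Real.log (M : ℝ))) atTop atTop :=
    (tendsto_natCast_atTop_atTop.atTop_mul_atTop₀ hlogM).const_mul_atTop hκ0
  have hls : ∀ᶠ x : ℝ in atTop, lam * Real.log x ≤ T * x := by
    filter_upwards [log_small (1 / (lam + 1)) (by positivity), eventually_ge_atTop (1 : ℝ)]
      with x h1 h2
    have h3 : lam * Real.log x ≤ lam * (1 / (lam + 1) * x) := mul_le_mul_of_nonneg_left h1 hl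
    have h4 : lam * (1 / (lam + 1) * x) ≤ 1 * x := by
      rw [← mul_assoc]
      refine mul_le_mul_of_nonneg_right ?_ (by linarith)
      rw [mul_one_div, div_le_one (by positivity)]
      linarith
    nlinarith
  have hM1 : ∀ᶠ M : ℕ in atTop, κ * Real.log (M : ℝ) ≤ M := by
    have h1 := tendsto_natCast_atTop_atTop.eventually (log_small (1 / κ) (by positivity))
    filter_upwards [h1] with M hM
    have h2 := mul_le_mul_of_nonneg_left hM hκ0.le
    rwa [← mul_assoc, mul_one_div_cancel hκ0.ne', one_mul] at h2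
  filter_upwards [hx.eventually h, hx.eventually hls, hM1, hlogM.eventually_ge_atTop 1,
    hlogM.eventually_ge_atTop (2 / κ), hx.eventually_ge_atTop 2, eventually_ge_atTop 2,
    hlogM.eventually_ge_atTop (1 / (T * κ))]
    with M hM1 hM2 hM3 hM4 hM5 hM6 hM7 hM8
  obtain ⟨S, hS1, hS2⟩ := hM1
  obtain ⟨x, hxd⟩ : ∃ x : ℝ, x = κ * (M * Real.log (M : ℝ)) := ⟨_, rfl⟩
  rw [← hxd] at hS1 hS2 hM2 hM6
  have hMr : (2 : ℝ) ≤ M := by exact_mod_cast hM7
  have hlM : 0 < Real.log (M : ℝ) := by linarith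
  have hx0 : 0 < x := by linarith
  have hlx0 : 0 ≤ Real.log x := Real.log_nonneg (by linarith)
  -- `log x ≤ 2 log M`
  have hlx : Real.log x ≤ 2 * Real.log (M : ℝ) := by
    have h1 : x ≤ (M : ℝ) ^ 2 := by
      rw [hxd, sq]
      calc κ * (M * Real.log (M : ℝ)) = M * (κ * Real.log (M : ℝ)) := by ring
        _ ≤ M * M := mul_le_mul_of_nonneg_left hM3 (by linarith)
    have h2 := Real.log_le_log hx0 h1
    rw [Real.log_pow] at h2
    exact_mod_cast h2
  -- the number of primes up to `2 T x`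
  have hY : ∀ p : ℕ, (p : ℝ) ≤ T * x + lam * Real.log x → p.Prime → Nat.primeCounting p ≤ M := by
    intro p hp _
    obtain ⟨Y, hYd⟩ : ∃ Y : ℕ, Y = ⌊2 * (T * x)⌋₊ := ⟨_, rfl⟩
    have h1 : p ≤ Y := by
      rw [hYd]
      refine Nat.le_floor ?_
      linarith
    have hTx : 0 ≤ 2 * (T * x) := by positivity
    have h2 : (Y : ℝ) ≤ 2 * (T * x) := by rw [hYd]; exact Nat.floor_le hTx
    have h3 : (M : ℝ) ≤ Y := by
      have h4 := Nat.lt_floor_add_one (2 * (T * x))
      rw [← hYd] at h4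
      have h5 : 2 * (T * x) = 2 * (T * κ * Real.log (M : ℝ)) * M := by rw [hxd]; ring
      have h6 : 1 ≤ T * κ * Real.log (M : ℝ) := by
        rw [div_le_iff₀ (by positivity)] at hM8
        linarith
      have h7 : 2 * (M : ℝ) ≤ 2 * (T * x) := by
        rw [h5]
        nlinarith
      linarith
    have h4 : (2 : ℕ) ≤ Y := by
      have : M ≤ Y := by exact_mod_cast h3
      omega
    have h5 := hpc Y h4
    have h6 : (Nat.primeCounting p : ℝ) ≤ Nat.primeCounting Y := by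
      exact_mod_cast Nat.monotone_primeCounting h1
    have h7 : Real.log (M : ℝ) ≤ Real.log (Y : ℝ) := Real.log_le_log (by linarith) h3
    have h8 : C * Y / Real.log (Y : ℝ) ≤ M := by
      rw [div_le_iff₀ (by linarith)]
      calc C * (Y : ℝ) ≤ C * (2 * (T * x)) := mul_le_mul_of_nonneg_left h2 hC.le
        _ = (4 * C * T * κ) * (M * Real.log (M : ℝ)) / 2 := by rw [hxd]; ring
        _ = M * Real.log (M : ℝ) / 2 := by rw [hCT, one_mul]
        _ ≤ M * Real.log (M : ℝ) := by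
            have : 0 ≤ (M : ℝ) * Real.log (M : ℝ) := by positivity
            linarith
        _ ≤ M * Real.log (Y : ℝ) := mul_le_mul_of_nonneg_left h7 (by linarith)
    have h9 : (Nat.primeCounting p : ℝ) ≤ M := by linarith
    exact_mod_cast h9
  have hcs := count_scale P M (mul_nonneg hl hlx0) hY S hS2
  -- conclusion
  obtain ⟨R, hR⟩ : ∃ R : ℝ, R = ({n : ℕ | n < M ∧ P n}.ncard : ℝ) := ⟨_, rfl⟩
  rw [← hR] at hcs ⊢
  have hR0 : 0 ≤ R := by rw [hR]; positivity
  have h1 : lam * Real.log x + 1 ≤ (2 * lam + 1) * Real.log (M : ℝ) := by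
    have h2 : lam * Real.log x ≤ lam * (2 * Real.log (M : ℝ)) := mul_le_mul_of_nonneg_left hlx hl
    nlinarith
  have h2 : del * x ≤ R * ((2 * lam + 1) * Real.log (M : ℝ)) :=
    (hS1.trans hcs).trans (mul_le_mul_of_nonneg_left h1 hR0)
  have h3 : del * κ * M * Real.log (M : ℝ) ≤ R * (2 * lam + 1) * Real.log (M : ℝ) := by
    calc del * κ * M * Real.log (M : ℝ) = del * x := by rw [hxd]; ring
      _ ≤ R * ((2 * lam + 1) * Real.log (M : ℝ)) := h2
      _ = R * (2 * lam + 1) * Real.log (M : ℝ) := by ring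
  have h4 : del * κ * M ≤ R * (2 * lam + 1) := le_of_mul_le_mul_right h3 hlM
  calc del * κ / (2 * lam + 1) * M = del * κ * M / (2 * lam + 1) := by ring
    _ ≤ R := by rw [div_le_iff₀ (by linarith)]; exact h4

/-- **from windows to upper density** -/
theorem upper_of_windows (P : ℕ → Prop) (T lam del : ℝ) (hT : 1 ≤ T) (hl : 0 ≤ lam)
    (hd : 0 < del)
    (h : ∃ᶠ x : ℝ in atTop, ∃ S : Finset ℕ, del * x ≤ S.card ∧ ∀ N ∈ S, (N : ℝ) ≤ T * x ∧
      ∃ n, P n ∧ N ≤ Nat.nth Nat.Prime n ∧ (Nat.nth Nat.Prime n : ℝ) ≤ N + lam * Real.log x) :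
    PosUpper P := by
  obtain ⟨C, hC, hpc⟩ := cnt_pc
  have hT0 : 0 < T := by linarith
  have hls : ∀ᶠ x : ℝ in atTop, lam * Real.log x ≤ T * x := by
    filter_upwards [log_small (1 / (lam + 1)) (by positivity), eventually_ge_atTop (1 : ℝ)]
      with x h1 h2
    have h3 : lam * Real.log x ≤ lam * (1 / (lam + 1) * x) := mul_le_mul_of_nonneg_left h1 hl
    have h4 : lam * (1 / (lam + 1) * x) ≤ 1 * x := by
      rw [← mul_assoc]
      refine mul_le_mul_of_nonneg_right ?_ (by linarith)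
      rw [mul_one_div, div_le_one (by positivity)]
      linarith
    nlinarith
  refine ⟨del / (4 * C * T * (lam + 1)), by positivity, ?_⟩
  rw [Filter.frequently_atTop]
  intro M0
  -- large `x`
  have hev : ∀ᶠ x : ℝ in atTop, M0 ≤ Nat.primeCounting ⌊2 * (T * x)⌋₊ := by
    have h1 : Tendsto (fun x : ℝ => Nat.primeCounting ⌊2 * (T * x)⌋₊) atTop atTop :=
      Nat.tendsto_primeCounting.comp (tendsto_nat_floor_atTop.comp
        ((tendsto_id.const_mul_atTop hT0).const_mul_atTop two_pos))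
    exact h1.eventually_ge_atTop M0
  obtain ⟨x, ⟨S, hS1, hS2⟩, hx1, hx2, hx3, hx4⟩ := (h.and_eventually
    (hls.and (hev.and ((eventually_ge_atTop (3 : ℝ)).and
      (Real.tendsto_log_atTop.eventually_ge_atTop (1 : ℝ)))))).exists
  obtain ⟨Y, hYd⟩ : ∃ Y : ℕ, Y = ⌊2 * (T * x)⌋₊ := ⟨_, rfl⟩
  rw [← hYd] at hx2
  have hTx : 0 ≤ 2 * (T * x) := by positivity
  have h2 : (Y : ℝ) ≤ 2 * (T * x) := by rw [hYd]; exact Nat.floor_le hTx
  have hxT : x ≤ T * x := by nlinarith
  have h3 : x ≤ Y := by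
    have h4 := Nat.lt_floor_add_one (2 * (T * x))
    rw [← hYd] at h4
    linarith
  have hY2 : (2 : ℕ) ≤ Y := by
    have : (2 : ℝ) ≤ Y := by linarith
    exact_mod_cast this
  refine ⟨Nat.primeCounting Y, hx2, ?_⟩
  have hYc : ∀ p : ℕ, (p : ℝ) ≤ T * x + lam * Real.log x → p.Prime →
      Nat.primeCounting p ≤ Nat.primeCounting Y := by
    intro p hp _
    refine Nat.monotone_primeCounting ?_
    rw [hYd]
    refine Nat.le_floor ?_
    linarith
  have hlx0 : 0 ≤ Real.log x := by linarith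
  have hcs := count_scale P (Nat.primeCounting Y) (mul_nonneg hl hlx0) hYc S hS2
  obtain ⟨R, hR⟩ : ∃ R : ℝ, R = ({n : ℕ | n < Nat.primeCounting Y ∧ P n}.ncard : ℝ) := ⟨_, rfl⟩
  rw [← hR] at hcs ⊢
  have hR0 : 0 ≤ R := by rw [hR]; positivity
  have h5 : (Nat.primeCounting Y : ℝ) ≤ C * (2 * (T * x)) / Real.log x := by
    refine (hpc Y hY2).trans ?_
    have h6 : Real.log x ≤ Real.log (Y : ℝ) := Real.log_le_log (by linarith) h3
    have h7 : C * (Y : ℝ) ≤ C * (2 * (T * x)) := mul_le_mul_of_nonneg_left h2 hC.le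
    exact div_le_div₀ (by positivity) h7 (by linarith) h6
  have h6 : del * x ≤ R * ((lam + 1) * Real.log x) := by
    refine (hS1.trans hcs).trans (mul_le_mul_of_nonneg_left ?_ hR0)
    nlinarith
  have h7 : (Nat.primeCounting Y : ℝ) * Real.log x ≤ C * (2 * (T * x)) := by
    rw [le_div_iff₀ (by linarith)] at h5
    exact h5
  have hlx : 0 < Real.log x := by linarith
  have h8 : del * (Nat.primeCounting Y : ℝ) * Real.log x ≤
      (R * (4 * C * T * (lam + 1))) * Real.log x := by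
    have h9 : del * ((Nat.primeCounting Y : ℝ) * Real.log x) ≤ del * (C * (2 * (T * x))) :=
      mul_le_mul_of_nonneg_left h7 hd.le
    have h10 : del * (C * (2 * (T * x))) = 2 * C * T * (del * x) := by ring
    have h11 : 2 * C * T * (del * x) ≤ 2 * C * T * (R * ((lam + 1) * Real.log x)) :=
      mul_le_mul_of_nonneg_left h6 (by positivity)
    have h12 : 0 ≤ C * T * (R * ((lam + 1) * Real.log x)) := by positivity
    nlinarith
  have h9 : del * (Nat.primeCounting Y : ℝ) ≤ R * (4 * C * T * (lam + 1)) :=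
    le_of_mul_le_mul_right h8 hlx
  calc del / (4 * C * T * (lam + 1)) * (Nat.primeCounting Y : ℝ)
      = del * (Nat.primeCounting Y : ℝ) / (4 * C * T * (lam + 1)) := by ring
    _ ≤ R := by rw [div_le_iff₀ (by positivity)]; exact h9

end Pool.Agent.H19.LS
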